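import Mathlib

/-!
# Symplectic billiards in convex polygons: basic tools

`GStep K p q s` says that the chord `pq` is sent to `qs` by the symplectic billiard in `K`, with
`q` in the relative interior of a nondegenerate segment of `K` contained in a support line.
A closed walk for this relation gives a periodic orbit in the sense of the problem.
-/

set_option autoImplicit false

open Set Relation

namespace Pool.Agent.SympBilliard

/-- `K` has a periodic symplectic billiard orbit (the wording of the frozen statement). -/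
def HasOrbit (K : Set (ℝ × ℝ)) : Prop :=
    ∃ n : ℕ, 0 < n ∧ ∃ x : ℕ → ℝ × ℝ, (∀ i, x (i + n) = x i) ∧
      ∀ i : ℕ,
        x i ∈ frontier K ∧
        x i ∉ Set.extremePoints ℝ K ∧
        x (i + 2) ≠ x i ∧
        ∃ a b : ℝ, (a ≠ 0 ∨ b ≠ 0) ∧
          a * ((x (i + 2)).1 - (x i).1) + b * ((x (i + 2)).2 - (x i).2) = 0 ∧
          (∀ p ∈ K, a * p.1 + b * p.2 ≤ a * (x (i + 1)).1 + b * (x (i + 1)).2) ∧
          a * (x i).1 + b * (x i).2 < a * (x (i + 1)).1 + b * (x (i + 1)).2 ∧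
          ∃ p ∈ K, a * p.1 + b * p.2 < a * (x i).1 + b * (x i).2

/-- One step of the symplectic billiard in `K`. -/
def GStep (K : Set (ℝ × ℝ)) (p q s : ℝ × ℝ) : Prop :=
  (∃ u ∈ K, ∃ v ∈ K, u ≠ v ∧ q ∈ openSegment ℝ u v) ∧ s ≠ p ∧
    ∃ a b : ℝ, (a ≠ 0 ∨ b ≠ 0) ∧ a * s.1 + b * s.2 = a * p.1 + b * p.2 ∧
      (∀ z ∈ K, a * z.1 + b * z.2 ≤ a * q.1 + b * q.2) ∧
      a * p.1 + b * p.2 < a * q.1 + b * q.2 ∧
      ∃ z ∈ K, a * z.1 + b * z.2 < a * p.1 + b * p.2

/-- The step relation on chords. -/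
def CStep (K : Set (ℝ × ℝ)) (c d : (ℝ × ℝ) × (ℝ × ℝ)) : Prop :=
  c.2 = d.1 ∧ GStep K c.1 c.2 d.2

theorem exists_seq_of_transGen {α : Type*} {R : α → α → Prop} {a b : α} (h : TransGen R a b) :
    ∃ n : ℕ, 0 < n ∧ ∃ f : ℕ → α, f 0 = a ∧ f n = b ∧ ∀ i < n, R (f i) (f (i + 1)) := by
  induction h with
  | @single b h =>
    refine ⟨1, one_pos, fun i => if i = 0 then a else b, by simp, by simp, ?_⟩
    intro i hi
    obtain rfl : i = 0 := by omega
    simpa using h
  | @tail b c _ h ih =>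
    obtain ⟨n, hn, f, h0, h1, h2⟩ := ih
    refine ⟨n + 1, by omega, fun i => if i ≤ n then f i else c, by simp [h0], by simp, ?_⟩
    intro i hi
    rcases Nat.lt_or_ge i n with h3 | h3
    · have h4 : i ≤ n := by omega
      have h5 : i + 1 ≤ n := by omega
      simp only [h4, h5, if_true]
      exact h2 i h3
    · obtain rfl : i = n := by omega
      simp only [le_refl, if_true, h1]
      simpa using h

theorem exists_periodic_of_transGen {α : Type*} {R : α → α → Prop} {a : α} (h : TransGen R a a) :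
    ∃ n : ℕ, 0 < n ∧ ∃ f : ℕ → α, (∀ i, f (i + n) = f i) ∧ ∀ i, R (f i) (f (i + 1)) := by
  obtain ⟨n, hn, f, h0, h1, h2⟩ := exists_seq_of_transGen h
  refine ⟨n, hn, fun i => f (i % n), fun i => by simp, fun i => ?_⟩
  have hlt : i % n < n := Nat.mod_lt _ hn
  have h3 := h2 (i % n) hlt
  rcases Nat.lt_or_ge (i % n + 1) n with h4 | h4
  · have : (i + 1) % n = i % n + 1 := by
      rw [← Nat.mod_add_mod, Nat.mod_eq_of_lt h4]
    simp only [this]
    exact h3
  · have h5 : i % n + 1 = n := by omega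
    have : (i + 1) % n = 0 := by
      rw [← Nat.mod_add_mod, h5, Nat.mod_self]
    simp only [this, h0]
    rw [h5, h1] at h3
    exact h3

theorem not_extreme_of_openSegment {K : Set (ℝ × ℝ)} {q u v : ℝ × ℝ} (hu : u ∈ K) (hv : v ∈ K)
    (huv : u ≠ v) (hq : q ∈ openSegment ℝ u v) : q ∉ Set.extremePoints ℝ K := by
  intro h
  have h1 := h.2 hu hv hq
  have h2 := h.2 hv hu (by rw [openSegment_symm]; exact hq)
  exact huv (h1.trans h2.symm)

theorem mem_frontier_of_support {K : Set (ℝ × ℝ)} {q : ℝ × ℝ} (hq : q ∈ K) {a b : ℝ}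
    (hab : a ≠ 0 ∨ b ≠ 0) (h : ∀ z ∈ K, a * z.1 + b * z.2 ≤ a * q.1 + b * q.2) :
    q ∈ frontier K := by
  refine ⟨subset_closure hq, ?_⟩
  intro hint
  rw [mem_interior_iff_mem_nhds] at hint
  have hc : Filter.Tendsto (fun t : ℝ => q + t • ((a, b) : ℝ × ℝ)) (nhds 0) (nhds q) := by
    have : Filter.Tendsto (fun t : ℝ => q + t • ((a, b) : ℝ × ℝ)) (nhds 0)
        (nhds (q + (0 : ℝ) • ((a, b) : ℝ × ℝ))) := Continuous.tendsto (by fun_prop) 0
    rwa [zero_smul, add_zero] at this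
  have h1 := hc.eventually hint
  have h2 : ∀ᶠ t : ℝ in nhdsWithin 0 (Set.Ioi 0), q + t • ((a, b) : ℝ × ℝ) ∈ K :=
    h1.filter_mono nhdsWithin_le_nhds
  obtain ⟨t, ht, htpos⟩ := (h2.and eventually_mem_nhdsWithin).exists
  have h3 := h _ ht
  simp only [Prod.fst_add, Prod.snd_add, Prod.smul_fst, Prod.smul_snd, smul_eq_mul] at h3
  have h4 : 0 < t := htpos
  have h5 : 0 < a ^ 2 + b ^ 2 := by
    rcases hab with h | h
    · positivity
    · positivity
  nlinarith [mul_pos h4 h5]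

theorem hasOrbit_of_transGen {K : Set (ℝ × ℝ)} (hK : Convex ℝ K) {c : (ℝ × ℝ) × (ℝ × ℝ)}
    (h : TransGen (CStep K) c c) : HasOrbit K := by
  obtain ⟨n, hn, f, hper, hstep⟩ := exists_periodic_of_transGen h
  refine ⟨n, hn, fun i => (f i).1, fun i => by simp only [hper], fun i => ?_⟩
  have hmid : ∀ i, (f i).2 = (f (i + 1)).1 := fun i => (hstep i).1
  -- properties of the middle point of a step
  have hpt : ∀ j, (f (j + 1)).1 ∈ frontier K ∧ (f (j + 1)).1 ∉ Set.extremePoints ℝ K := by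
    intro j
    obtain ⟨h1, ⟨u, hu, v, hv, huv, hq⟩, -, a, b, hab, -, hmax, -, -⟩ := hstep j
    rw [h1] at hq hmax
    have hqK : (f (j + 1)).1 ∈ K := hK.openSegment_subset hu hv hq
    exact ⟨mem_frontier_of_support hqK hab hmax, not_extreme_of_openSegment hu hv huv hq⟩
  have hpt' : (f i).1 ∈ frontier K ∧ (f i).1 ∉ Set.extremePoints ℝ K := by
    have h2 := hpt (i + n - 1)
    have h3 : i + n - 1 + 1 = i + n := by omega
    rw [h3, hper] at h2
    exact h2
  obtain ⟨h1, -, hne, a, b, hab, hpar, hmax, hlt, z, hz, hzlt⟩ := hstep i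
  rw [hmid (i + 1)] at hne hpar
  rw [h1] at hmax hlt
  refine ⟨hpt'.1, hpt'.2, hne, a, b, hab, ?_, hmax, hlt, z, hz, hzlt⟩
  have : (f (i + 1 + 1)).1 = (f (i + 2)).1 := rfl
  rw [this] at hpar
  linarith

/-! ### Affine invariance -/

/-- The affine map `(x, y) ↦ o + x u + y v`. -/
def aff (o u v : ℝ × ℝ) (z : ℝ × ℝ) : ℝ × ℝ := o + z.1 • u + z.2 • v

theorem aff_injective {o u v : ℝ × ℝ} (h : u.1 * v.2 - u.2 * v.1 ≠ 0) :
    Function.Injective (aff o u v) := by
  intro z w hzw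
  simp only [aff] at hzw
  have h1 : z.1 * u.1 + z.2 * v.1 = w.1 * u.1 + w.2 * v.1 := by
    have := congrArg Prod.fst hzw
    simp at this
    linarith
  have h2 : z.1 * u.2 + z.2 * v.2 = w.1 * u.2 + w.2 * v.2 := by
    have := congrArg Prod.snd hzw
    simp at this
    linarith
  ext
  · have : (z.1 - w.1) * (u.1 * v.2 - u.2 * v.1) = 0 := by linear_combination v.2 * h1 - v.1 * h2
    rcases mul_eq_zero.1 this with h3 | h3
    · linarith
    · exact absurd h3 h
  · have : (z.2 - w.2) * (u.1 * v.2 - u.2 * v.1) = 0 := by linear_combination u.1 * h2 - u.2 * h1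
    rcases mul_eq_zero.1 this with h3 | h3
    · linarith
    · exact absurd h3 h

theorem GStep.image {K : Set (ℝ × ℝ)} {p q s o u v : ℝ × ℝ} (hdet : u.1 * v.2 - u.2 * v.1 ≠ 0)
    (h : GStep K p q s) :
    GStep (aff o u v '' K) (aff o u v p) (aff o u v q) (aff o u v s) := by
  obtain ⟨⟨u', hu', v', hv', huv', hq⟩, hne, a, b, hab, hpar, hmax, hlt, z, hz, hzlt⟩ := h
  have hinj := aff_injective (o := o) hdet
  set D : ℝ := u.1 * v.2 - u.2 * v.1 with hD
  -- the transformed normal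
  have key : ∀ w : ℝ × ℝ, ((a * v.2 - b * u.2) / D) * (aff o u v w).1 +
      ((b * u.1 - a * v.1) / D) * (aff o u v w).2
      = ((a * v.2 - b * u.2) / D) * o.1 + ((b * u.1 - a * v.1) / D) * o.2
        + (a * w.1 + b * w.2) := by
    intro w
    simp only [aff, Prod.fst_add, Prod.snd_add, Prod.smul_fst, Prod.smul_snd, smul_eq_mul]
    field_simp
    rw [hD]
    ring
  refine ⟨⟨aff o u v u', mem_image_of_mem _ hu', aff o u v v', mem_image_of_mem _ hv',
    fun e => huv' (hinj e), ?_⟩, fun e => hne (hinj e), (a * v.2 - b * u.2) / D,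
    (b * u.1 - a * v.1) / D, ?_, ?_, ?_, ?_, aff o u v z, mem_image_of_mem _ hz, ?_⟩
  · obtain ⟨α, β, hα, hβ, hαβ, rfl⟩ := hq
    refine ⟨α, β, hα, hβ, hαβ, ?_⟩
    have hβ' : β = 1 - α := by linarith
    subst hβ'
    simp only [aff]
    ext <;> simp <;> ring
  · by_contra hcon
    push Not at hcon
    obtain ⟨e1, e2⟩ := hcon
    rw [div_eq_zero_iff] at e1 e2
    have e1' : a * v.2 - b * u.2 = 0 := e1.resolve_right hdet
    have e2' : b * u.1 - a * v.1 = 0 := e2.resolve_right hdet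
    have ha : a * D = 0 := by rw [hD]; linear_combination u.1 * e1' + u.2 * e2'
    have hb : b * D = 0 := by rw [hD]; linear_combination v.1 * e1' + v.2 * e2'
    rcases mul_eq_zero.1 ha with h1 | h1
    · rcases mul_eq_zero.1 hb with h2 | h2
      · rcases hab with h3 | h3
        · exact h3 h1
        · exact h3 h2
      · exact hdet h2
    · exact hdet h1
  · rw [key, key, hpar]
  · rintro _ ⟨w, hw, rfl⟩
    rw [key, key]
    linarith [hmax w hw]
  · rw [key, key]; linarith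
  · rw [key, key]; linarith

theorem transGen_image {K : Set (ℝ × ℝ)} {c d : (ℝ × ℝ) × (ℝ × ℝ)} {o u v : ℝ × ℝ}
    (hdet : u.1 * v.2 - u.2 * v.1 ≠ 0) (h : TransGen (CStep K) c d) :
    TransGen (CStep (aff o u v '' K)) (Prod.map (aff o u v) (aff o u v) c)
      (Prod.map (aff o u v) (aff o u v) d) := by
  refine TransGen.lift (Prod.map (aff o u v) (aff o u v)) ?_ _ _ h
  rintro ⟨c1, c2⟩ ⟨d1, d2⟩ ⟨h1, h2⟩
  simp only at h1 h2
  subst h1
  exact ⟨rfl, h2.image hdet⟩

/-- `K` has a closed walk of chords. -/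
def HasWalk (K : Set (ℝ × ℝ)) : Prop := ∃ c, TransGen (CStep K) c c

theorem HasWalk.hasOrbit {K : Set (ℝ × ℝ)} (hK : Convex ℝ K) (h : HasWalk K) : HasOrbit K := by
  obtain ⟨c, hc⟩ := h
  exact hasOrbit_of_transGen hK hc

theorem HasWalk.image {K : Set (ℝ × ℝ)} {o u v : ℝ × ℝ} (hdet : u.1 * v.2 - u.2 * v.1 ≠ 0)
    (h : HasWalk K) : HasWalk (aff o u v '' K) := by
  obtain ⟨c, hc⟩ := h
  exact ⟨_, transGen_image hdet hc⟩

end Pool.Agent.SympBilliard
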