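import Pool.Agent.SympBilliard.Basic

/-!
# Closed walks in the normal form quadrilaterals
-/

set_option autoImplicit false

open Set Relation

namespace Pool.Agent.SympBilliard

/-- The normal form quadrilateral with vertices `(0,0), (1,0), (X,Y), (0,1)`. -/
def quad (X Y : ℝ) : Set (ℝ × ℝ) :=
  convexHull ℝ {((0:ℝ), (0:ℝ)), ((1:ℝ), (0:ℝ)), (X, Y), ((0:ℝ), (1:ℝ))}

theorem convex_halfplane (a b c : ℝ) : Convex ℝ {z : ℝ × ℝ | a * z.1 + b * z.2 ≤ c} := by
  intro x hx y hy α β hα hβ hαβ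
  simp only [mem_ofPred_eq, Prod.fst_add, Prod.snd_add, Prod.smul_fst, Prod.smul_snd,
    smul_eq_mul] at *
  have h1 := mul_le_mul_of_nonneg_left hx hα
  have h2 := mul_le_mul_of_nonneg_left hy hβ
  have h3 : α * c + β * c = c := by rw [← add_mul, hαβ, one_mul]
  linarith

theorem quad_support {X Y a b c : ℝ} (h0 : 0 ≤ c) (h1 : a ≤ c) (h2 : a * X + b * Y ≤ c)
    (h3 : b ≤ c) : ∀ z ∈ quad X Y, a * z.1 + b * z.2 ≤ c := by
  intro z hz
  have : quad X Y ⊆ {z : ℝ × ℝ | a * z.1 + b * z.2 ≤ c} := by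
    refine convexHull_min ?_ (convex_halfplane a b c)
    rintro z (rfl | rfl | rfl | rfl) <;> simp only [mem_ofPred_eq] <;> linarith
  exact this hz

theorem v00_mem (X Y : ℝ) : ((0:ℝ), (0:ℝ)) ∈ quad X Y := subset_convexHull ℝ _ (by simp)
theorem v10_mem (X Y : ℝ) : ((1:ℝ), (0:ℝ)) ∈ quad X Y := subset_convexHull ℝ _ (by simp)
theorem vXY_mem (X Y : ℝ) : (X, Y) ∈ quad X Y := subset_convexHull ℝ _ (by simp)
theorem v01_mem (X Y : ℝ) : ((0:ℝ), (1:ℝ)) ∈ quad X Y := subset_convexHull ℝ _ (by simp)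

/-- Reflection at a point of the bottom side. -/
theorem step_bottom {X Y : ℝ} (hY : 0 < Y) {t : ℝ} (ht0 : 0 < t) (ht1 : t < 1) {p s : ℝ × ℝ}
    (hps : s.2 = p.2) (h0 : 0 < p.2) (h1 : p.2 < 1) (hne : s.1 ≠ p.1) :
    GStep (quad X Y) p (t, 0) s := by
  refine ⟨⟨(0, 0), v00_mem X Y, (1, 0), v10_mem X Y, by simp, ?_⟩, fun e => hne (by rw [e]),
    0, -1, Or.inr (by norm_num), ?_, ?_, ?_, (0, 1), v01_mem X Y, ?_⟩
  · exact ⟨1 - t, t, by linarith, ht0, by ring, by ext <;> simp⟩
  · rw [hps]; ring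
  · intro z hz
    have := quad_support (X := X) (Y := Y) (a := 0) (b := -1) (c := 0) le_rfl le_rfl
      (by linarith) (by norm_num) z hz
    simpa using this
  · simp only; linarith
  · simp only; linarith

/-- Reflection at a point of the left side. -/
theorem step_left {X Y : ℝ} (hX : 0 < X) {t : ℝ} (ht0 : 0 < t) (ht1 : t < 1) {p s : ℝ × ℝ}
    (hps : s.1 = p.1) (h0 : 0 < p.1) (h1 : p.1 < 1) (hne : s.2 ≠ p.2) :
    GStep (quad X Y) p (0, t) s := by
  refine ⟨⟨(0, 0), v00_mem X Y, (0, 1), v01_mem X Y, by simp, ?_⟩, fun e => hne (by rw [e]),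
    -1, 0, Or.inl (by norm_num), ?_, ?_, ?_, (1, 0), v10_mem X Y, ?_⟩
  · exact ⟨1 - t, t, by linarith, ht0, by ring, by ext <;> simp⟩
  · rw [hps]; ring
  · intro z hz
    have := quad_support (X := X) (Y := Y) (a := -1) (b := 0) (c := 0) le_rfl (by norm_num)
      (by linarith) le_rfl z hz
    simpa using this
  · simp only; linarith
  · simp only; linarith

/-- Reflection at a point of the top side, between `(0,1)` and `(X,Y)`. -/
theorem step_top {X Y : ℝ} (hX : 0 < X) (_hY : 0 < Y) (_hY1 : Y ≤ 1) (hXY : 1 ≤ X + Y) {q : ℝ × ℝ}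
    (hq0 : 0 < q.1) (hq1 : q.1 < X) (hq : (1 - Y) * q.1 + X * q.2 = X) {p s : ℝ × ℝ}
    (hps : (1 - Y) * s.1 + X * s.2 = (1 - Y) * p.1 + X * p.2)
    (h0 : 0 < (1 - Y) * p.1 + X * p.2) (h1 : (1 - Y) * p.1 + X * p.2 < X) (hne : s ≠ p) :
    GStep (quad X Y) p q s := by
  refine ⟨⟨(0, 1), v01_mem X Y, (X, Y), vXY_mem X Y, ?_, ?_⟩, hne,
    1 - Y, X, Or.inr hX.ne', hps, ?_, ?_, (0, 0), v00_mem X Y, ?_⟩
  · intro e
    have : (0:ℝ) = X := congrArg Prod.fst e
    linarith
  · refine ⟨1 - q.1 / X, q.1 / X, ?_, by positivity, by ring, ?_⟩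
    · rw [sub_pos, div_lt_one hX]; exact hq1
    · ext
      · simp; field_simp
      · simp only [Prod.smul_mk, Prod.mk_add_mk, smul_eq_mul]
        field_simp
        linarith
  · intro z hz
    rw [hq]
    exact quad_support (X := X) (Y := Y) (a := 1 - Y) (b := X) (c := X) hX.le (by linarith)
      (by nlinarith) le_rfl z hz
  · rw [hq]; exact h1
  · simp only [mul_zero, add_zero]; exact h0

/-- Reflection at a point of the right side, between `(1,0)` and `(X,Y)`. -/
theorem step_right {X Y : ℝ} (_hX : 0 < X) (hY : 0 < Y) (_hX1 : X ≤ 1) (hXY : 1 < X + Y)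
    {q : ℝ × ℝ}
    (hq0 : 0 < q.2) (hq1 : q.2 < Y) (hq : Y * q.1 + (1 - X) * q.2 = Y) {p s : ℝ × ℝ}
    (hps : Y * s.1 + (1 - X) * s.2 = Y * p.1 + (1 - X) * p.2)
    (h0 : 0 < Y * p.1 + (1 - X) * p.2) (h1 : Y * p.1 + (1 - X) * p.2 < Y) (hne : s ≠ p) :
    GStep (quad X Y) p q s := by
  refine ⟨⟨(1, 0), v10_mem X Y, (X, Y), vXY_mem X Y, ?_, ?_⟩, hne,
    Y, 1 - X, Or.inl hY.ne', hps, ?_, ?_, (0, 0), v00_mem X Y, ?_⟩
  · intro e
    have : (0:ℝ) = Y := congrArg Prod.snd e
    linarith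
  · refine ⟨1 - q.2 / Y, q.2 / Y, ?_, by positivity, by ring, ?_⟩
    · rw [sub_pos, div_lt_one hY]; exact hq1
    · ext
      · simp only [Prod.smul_mk, Prod.mk_add_mk, smul_eq_mul]
        field_simp
        linarith
      · simp; field_simp
  · intro z hz
    rw [hq]
    exact quad_support (X := X) (Y := Y) (a := Y) (b := 1 - X) (c := Y) hY.le le_rfl
      (by nlinarith) (by linarith) z hz
  · rw [hq]; exact h1
  · simp only [mul_zero, add_zero]; exact h0

/-- Three-periodic orbits (medial triangles). -/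
theorem walk3 {X Y : ℝ} (hX : 0 < X) (hX1 : X ≤ 1) (hY : 0 < Y) (hXY : 1 ≤ X + Y)
    (hY2 : Y < 1 / 2) : HasWalk (quad X Y) := by
  have hY1 : 0 < 1 - Y := by linarith
  set h : ℝ := X / (2 * (1 - Y)) with hh
  have hh0 : 0 < h := by positivity
  have hh1 : h < 1 := by rw [hh, div_lt_one (by positivity)]; linarith
  have hhe : (1 - Y) * h = X / 2 := by rw [hh]; field_simp
  have hhX : h < X := by
    rw [hh, div_lt_iff₀ (by positivity)]
    nlinarith
  have s1 : GStep (quad X Y) (h, 0) (0, 1/2) (h, 1/2) :=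
    step_left hX (by norm_num) (by norm_num) rfl hh0 hh1 (by norm_num)
  have s2 : GStep (quad X Y) (0, 1/2) (h, 1/2) (h, 0) := by
    refine step_top hX hY (by linarith) hXY hh0 hhX ?_ ?_ ?_ ?_ ?_
    · simp only; linarith
    · simp only; linarith
    · simp only; linarith
    · simp only; linarith
    · intro e
      have := congrArg Prod.fst e
      simp only at this
      linarith
  have s3 : GStep (quad X Y) (h, 1/2) (h, 0) (0, 1/2) :=
    step_bottom hY hh0 hh1 rfl (by norm_num) (by norm_num) (by simp only; linarith)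
  refine ⟨((h, 0), (0, 1/2)), ?_⟩
  refine TransGen.head (b := ((0, 1/2), (h, 1/2))) ⟨rfl, s1⟩ ?_
  refine TransGen.head (b := ((h, 1/2), (h, 0))) ⟨rfl, s2⟩ ?_
  exact TransGen.single ⟨rfl, s3⟩

/-- Six-periodic orbits. -/
theorem walk6 {X Y : ℝ} (hX : 1 / 2 < X) (hX1 : X < 1) (hY : 1 / 2 < Y) (hY1 : Y < 1) :
    HasWalk (quad X Y) := by
  have hX0 : 0 < X := by linarith
  have hY0 : 0 < Y := by linarith
  have hX' : 0 < 1 - X := by linarith
  have hY' : 0 < 1 - Y := by linarith
  have hXY : 1 < X + Y := by linarith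
  have hN : 0 < X * Y + (1 - X) * (1 - Y) := by positivity
  set N : ℝ := X * Y + (1 - X) * (1 - Y) with hNdef
  set α : ℝ := X * Y / N with hα
  set β : ℝ := Y * (1 - Y) / N with hβ
  set γ : ℝ := X * (1 - X) / N with hγ
  have hα0 : 0 < α := by positivity
  have hβ0 : 0 < β := by positivity
  have hγ0 : 0 < γ := by positivity
  have hα1 : α < 1 := by rw [hα, div_lt_one hN, hNdef]; nlinarith
  have hβY : β < Y := by
    rw [hβ, div_lt_iff₀ hN, hNdef]
    nlinarith [mul_pos hY0 (mul_pos hX0 (by linarith : 0 < 2 * Y - 1))]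
  have hγX : γ < X := by
    rw [hγ, div_lt_iff₀ hN, hNdef]
    nlinarith [mul_pos hX0 (mul_pos hY0 (by linarith : 0 < 2 * X - 1))]
  have hsum1 : Y * α + (1 - X) * β = Y := by
    rw [hα, hβ, hNdef]
    rw [hNdef] at hN
    field_simp
  have hsum2 : (1 - Y) * γ + X * α = X := by
    rw [hα, hγ, hNdef]
    rw [hNdef] at hN
    field_simp
    ring
  have hab : (1 - X) * α = Y * γ := by
    rw [hα, hγ]; ring
  have hac : (1 - Y) * α = X * β := by
    rw [hα, hβ]; ring
  have hαβ : β ≠ α := by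
    intro e
    have : (1 - Y) * α = X * α := by rw [hac, e]
    have h2 : (1 - Y - X) * α = 0 := by linear_combination this
    rcases mul_eq_zero.1 h2 with h3 | h3
    · linarith
    · linarith
  have hαγ : γ ≠ α := by
    intro e
    have : (1 - X) * α = Y * α := by rw [hab, e]
    have h2 : (1 - X - Y) * α = 0 := by linear_combination this
    rcases mul_eq_zero.1 h2 with h3 | h3
    · linarith
    · linarith
  have s1 : GStep (quad X Y) (α, 0) (0, α) (α, β) :=
    step_left hX0 hα0 hα1 rfl hα0 hα1 hβ0.ne'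
  have s2 : GStep (quad X Y) (0, α) (α, β) (γ, 0) := by
    refine step_right hX0 hY0 hX1.le hXY hβ0 hβY hsum1 ?_ ?_ ?_ ?_
    · simp only; linarith
    · simp only; nlinarith [mul_pos hX' hα0]
    · simp only; nlinarith
    · intro e
      have := congrArg Prod.snd e
      simp only at this
      linarith
  have s3 : GStep (quad X Y) (α, β) (γ, 0) (0, β) :=
    step_bottom hY0 hγ0 (by linarith) rfl hβ0 (by linarith) (by simp only; linarith)
  have s4 : GStep (quad X Y) (γ, 0) (0, β) (γ, α) :=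
    step_left hX0 hβ0 (by linarith) rfl hγ0 (by linarith) hα0.ne'
  have s5 : GStep (quad X Y) (0, β) (γ, α) (α, 0) := by
    refine step_top hX0 hY0 hY1.le hXY.le hγ0 hγX hsum2 ?_ ?_ ?_ ?_
    · simp only; linarith
    · simp only; nlinarith [mul_pos hX0 hβ0]
    · simp only; nlinarith
    · intro e
      have := congrArg Prod.fst e
      simp only at this
      linarith
  have s6 : GStep (quad X Y) (γ, α) (α, 0) (0, α) :=
    step_bottom hY0 hα0 hα1 rfl hα0 hα1 (by simp only; linarith)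
  refine ⟨((α, 0), (0, α)), ?_⟩
  refine TransGen.head (b := ((0, α), (α, β))) ⟨rfl, s1⟩ ?_
  refine TransGen.head (b := ((α, β), (γ, 0))) ⟨rfl, s2⟩ ?_
  refine TransGen.head (b := ((γ, 0), (0, β))) ⟨rfl, s3⟩ ?_
  refine TransGen.head (b := ((0, β), (γ, α))) ⟨rfl, s4⟩ ?_
  refine TransGen.head (b := ((γ, α), (α, 0))) ⟨rfl, s5⟩ ?_
  exact TransGen.single ⟨rfl, s6⟩

/-- Ten-periodic orbits for `Y = 1/2`. -/
theorem walk10 {X : ℝ} (hX : 1 / 2 < X) (hX1 : X < 1) : HasWalk (quad X (1/2)) := by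
  have hX0 : 0 < X := by linarith
  have hX' : 0 < 1 - X := by linarith
  have hX2 : 0 < 2 * X - 1 := by linarith
  have hY0 : (0:ℝ) < 1 / 2 := by norm_num
  have hXY : 1 < X + 1 / 2 := by linarith
  obtain ⟨a0, ha0⟩ : ∃ a0 : ℝ, a0 = (1 - X) * (2 * X - 1) / X := ⟨_, rfl⟩
  obtain ⟨b0, hb0⟩ : ∃ b0 : ℝ, b0 = (2 * X - 1) / (2 * X) := ⟨_, rfl⟩
  obtain ⟨b1, hb1⟩ : ∃ b1 : ℝ, b1 = 1 - (1 - X) * (2 * X - 1) / (2 * X ^ 2) := ⟨_, rfl⟩
  obtain ⟨a2, ha2⟩ : ∃ a2 : ℝ, a2 = (2 * X ^ 2 - 2 * X + 1) / X := ⟨_, rfl⟩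
  obtain ⟨c5, hc5⟩ : ∃ c5 : ℝ, c5 = 1 / (2 * X) := ⟨_, rfl⟩
  have ha0p : 0 < a0 := by rw [ha0]; exact div_pos (mul_pos hX' hX2) hX0
  have hb0p : 0 < b0 := by rw [hb0]; exact div_pos hX2 (by linarith)
  have ha0e : X * a0 = (1 - X) * (2 * X - 1) := by rw [ha0]; field_simp
  have hb0e : 2 * X * b0 = 2 * X - 1 := by rw [hb0]; field_simp
  have hb1e : 2 * X * (1 - b1) = a0 := by rw [hb1, ha0]; field_simp; ring
  have ha2e : X * a2 = 2 * X ^ 2 - 2 * X + 1 := by rw [ha2]; field_simp
  have hc5e : 2 * X * c5 = 1 := by rw [hc5]; field_simp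
  have hb0h : b0 < 1 / 2 := by
    rw [hb0, div_lt_iff₀ (by positivity)]; nlinarith
  have ha0X : a0 < X := by rw [ha0, div_lt_iff₀ hX0]; nlinarith
  have ha2p : 0 < a2 := by
    rw [ha2]; apply div_pos _ hX0; nlinarith
  have ha21 : a2 < 1 := by
    rw [ha2, div_lt_one hX0]; nlinarith
  have hb1lt : b1 < 1 := by
    have : 0 < 2 * X * (1 - b1) := by rw [hb1e]; exact ha0p
    by_contra hcon
    push Not at hcon
    nlinarith
  have hb1p : 0 < b1 := by
    rw [hb1, sub_pos, div_lt_one (by positivity)]; nlinarith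
  have hc5p : 0 < c5 := by rw [hc5]; exact div_pos one_pos (by linarith)
  have hc51 : c5 < 1 := by rw [hc5, div_lt_one (by positivity)]; linarith
  have e1 : (1 - 1 / 2) * a0 + X * b1 = X := by nlinarith
  have e2 : X * b1 = 1 / 2 * a2 + X * b0 := by
    have h1 : 2 * X * X * b1 = X * a2 + 2 * X * X * b0 := by
      have : 2 * X * X * (1 - b1) = X * a0 := by rw [← hb1e]; ring
      rw [ha2e]
      have h3 : 2 * X * X * b0 = X * (2 * X - 1) := by rw [← hb0e]; ring
      rw [h3]
      rw [ha0e] at this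
      linarith
    have h2 : 2 * X * (X * b1 - (1 / 2 * a2 + X * b0)) = 0 := by linear_combination h1
    rcases mul_eq_zero.1 h2 with h3 | h3
    · linarith
    · linarith
  have e3 : 1 / 2 * a2 + (1 - X) * b0 = 1 / 2 := by
    have h2 : 2 * X * (1 / 2 * a2 + (1 - X) * b0 - 1 / 2) = 0 := by
      have : 2 * X * ((1 - X) * b0) = (1 - X) * (2 * X - 1) := by rw [← hb0e]; ring
      linear_combination ha2e + this
    rcases mul_eq_zero.1 h2 with h3 | h3
    · linarith
    · linarith
  have e4 : 1 / 2 * (2 * X - 1) + (1 - X) * c5 = 1 / 2 * a2 := by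
    have h2 : 2 * X * (1 / 2 * (2 * X - 1) + (1 - X) * c5 - 1 / 2 * a2) = 0 := by
      linear_combination (1 - X) * hc5e - ha2e
    rcases mul_eq_zero.1 h2 with h3 | h3
    · linarith
    · linarith
  have e5 : (1 - X) * b0 = 1 / 2 * a0 := by
    have h2 : 2 * X * ((1 - X) * b0 - 1 / 2 * a0) = 0 := by
      linear_combination (1 - X) * hb0e - ha0e
    rcases mul_eq_zero.1 h2 with h3 | h3
    · linarith
    · linarith
  have e6 : (1 - 1 / 2) * (2 * X - 1) + X * c5 = X := by linarith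
  have s0 : GStep (quad X (1/2)) (a0, 0) (0, b0) (a0, b1) :=
    step_left hX0 hb0p (by linarith) rfl ha0p (by linarith) hb1p.ne'
  have s1 : GStep (quad X (1/2)) (0, b0) (a0, b1) (2 * X - 1, 0) := by
    refine step_top hX0 hY0 (by norm_num) hXY.le ha0p ha0X e1 ?_ ?_ ?_ ?_
    · simp only; linarith
    · simp only; nlinarith
    · simp only; nlinarith
    · intro e
      have := congrArg Prod.snd e
      simp only at this
      linarith
  have s2 : GStep (quad X (1/2)) (a0, b1) (2 * X - 1, 0) (0, b1) :=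
    step_bottom hY0 hX2 (by linarith) rfl hb1p hb1lt (by simp only; linarith)
  have s3 : GStep (quad X (1/2)) (2 * X - 1, 0) (0, b1) (2 * X - 1, c5) :=
    step_left hX0 hb1p hb1lt rfl hX2 (by simp only; linarith) hc5p.ne'
  have s4 : GStep (quad X (1/2)) (0, b1) (2 * X - 1, c5) (a2, b0) := by
    refine step_top hX0 hY0 (by norm_num) hXY.le hX2 (by simp only; linarith) e6 ?_ ?_ ?_ ?_
    · simp only; linarith
    · simp only; nlinarith [mul_pos hX0 hb1p]
    · simp only; nlinarith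
    · intro e
      have := congrArg Prod.fst e
      simp only at this
      linarith
  have s5 : GStep (quad X (1/2)) (2 * X - 1, c5) (a2, b0) (a2, 0) := by
    refine step_right hX0 hY0 hX1.le hXY hb0p hb0h ?_ ?_ ?_ ?_ ?_
    · simp only; linarith
    · simp only; linarith
    · simp only; nlinarith [mul_pos hX' hc5p]
    · simp only; linarith
    · intro e
      have := congrArg Prod.snd e
      simp only at this
      linarith
  have s6 : GStep (quad X (1/2)) (a2, b0) (a2, 0) (0, b0) :=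
    step_bottom hY0 ha2p ha21 rfl hb0p (by simp only; linarith) (by simp only; linarith)
  have s7 : GStep (quad X (1/2)) (a2, 0) (0, b0) (a2, b0) :=
    step_left hX0 hb0p (by linarith) rfl ha2p ha21 hb0p.ne'
  have s8 : GStep (quad X (1/2)) (0, b0) (a2, b0) (a0, 0) := by
    refine step_right hX0 hY0 hX1.le hXY hb0p hb0h ?_ ?_ ?_ ?_ ?_
    · simp only; linarith
    · simp only; linarith
    · simp only; nlinarith [mul_pos hX' hb0p]
    · simp only; nlinarith
    · intro e
      have := congrArg Prod.snd e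
      simp only at this
      linarith
  have s9 : GStep (quad X (1/2)) (a2, b0) (a0, 0) (0, b0) :=
    step_bottom hY0 ha0p (by linarith) rfl hb0p (by simp only; linarith) (by simp only; linarith)
  refine ⟨((a0, 0), (0, b0)), ?_⟩
  refine TransGen.head (b := ((0, b0), (a0, b1))) ⟨rfl, s0⟩ ?_
  refine TransGen.head (b := ((a0, b1), (2 * X - 1, 0))) ⟨rfl, s1⟩ ?_
  refine TransGen.head (b := ((2 * X - 1, 0), (0, b1))) ⟨rfl, s2⟩ ?_
  refine TransGen.head (b := ((0, b1), (2 * X - 1, c5))) ⟨rfl, s3⟩ ?_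
  refine TransGen.head (b := ((2 * X - 1, c5), (a2, b0))) ⟨rfl, s4⟩ ?_
  refine TransGen.head (b := ((a2, b0), (a2, 0))) ⟨rfl, s5⟩ ?_
  refine TransGen.head (b := ((a2, 0), (0, b0))) ⟨rfl, s6⟩ ?_
  refine TransGen.head (b := ((0, b0), (a2, b0))) ⟨rfl, s7⟩ ?_
  refine TransGen.head (b := ((a2, b0), (a0, 0))) ⟨rfl, s8⟩ ?_
  exact TransGen.single ⟨rfl, s9⟩

/-- Four-periodic orbit in the square. -/
theorem walk4 : HasWalk (quad 1 1) := by
  have s1 : GStep (quad 1 1) (1/2, 0) (0, 1/2) (1/2, 1) :=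
    step_left one_pos (by norm_num) (by norm_num) rfl (by norm_num) (by norm_num) (by norm_num)
  have s2 : GStep (quad 1 1) (0, 1/2) (1/2, 1) (1, 1/2) :=
    step_top one_pos one_pos le_rfl (by norm_num) (by norm_num) (by norm_num) (by norm_num)
      (by norm_num) (by norm_num) (by norm_num) (by simp)
  have s3 : GStep (quad 1 1) (1/2, 1) (1, 1/2) (1/2, 0) :=
    step_right one_pos one_pos le_rfl (by norm_num) (by norm_num) (by norm_num) (by norm_num)
      (by norm_num) (by norm_num) (by norm_num) (by simp)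
  have s4 : GStep (quad 1 1) (1, 1/2) (1/2, 0) (0, 1/2) :=
    step_bottom one_pos (by norm_num) (by norm_num) rfl (by norm_num) (by norm_num)
      (by norm_num)
  refine ⟨((1/2, 0), (0, 1/2)), ?_⟩
  refine TransGen.head (b := ((0, 1/2), (1/2, 1))) ⟨rfl, s1⟩ ?_
  refine TransGen.head (b := ((1/2, 1), (1, 1/2))) ⟨rfl, s2⟩ ?_
  refine TransGen.head (b := ((1, 1/2), (1/2, 0))) ⟨rfl, s3⟩ ?_
  exact TransGen.single ⟨rfl, s4⟩

/-- Orbits of period `4k + 3` in trapezoids. -/
theorem walkTrap {X : ℝ} (hX0 : 0 < X) (hX1 : X < 1) : HasWalk (quad X 1) := by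
  have hr : 0 < 1 - X := by linarith
  set r : ℝ := 1 - X with hrdef
  have hr1 : r < 1 := by linarith
  -- choose k and w
  obtain ⟨k, w, hw0, hw1, hkw⟩ : ∃ (k : ℕ) (w : ℝ), 0 < w ∧ w < 1 ∧ r * (k + 2 * w) = 1 := by
    refine ⟨⌈1 / r⌉₊ - 1, (1 / r - (⌈1 / r⌉₊ - 1)) / 2, ?_, ?_, ?_⟩
    · have := Nat.ceil_lt_add_one (a := 1 / r) (by positivity)
      linarith
    · have := Nat.le_ceil (1 / r)
      linarith
    · have h1 : 1 ≤ ⌈1 / r⌉₊ := Nat.one_le_iff_ne_zero.2 (by positivity)
      push_cast [Nat.cast_sub h1]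
      field_simp
      ring
  have hak : r * (w + k) = 1 - r * w := by nlinarith
  have hXe : X = 1 - r := by rw [hrdef]; ring
  have hYX : (1:ℝ) < X + 1 := by linarith
  have hrw : 0 < r * w := by positivity
  have hrw1 : r * w < r := by nlinarith
  -- the walk along the blocks
  have hblock : ∀ j : ℕ, j < k → ReflTransGen (CStep (quad X 1)) ((r * (w + j), 0), (0, w))
      ((r * (w + (j + 1 : ℕ)), 0), (0, w)) := by
    intro j hj
    have hj' : ((j : ℝ) + 1) ≤ k := by exact_mod_cast hj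
    have haj0 : 0 < r * (w + j) := by positivity
    have haj1 : r * (w + j) ≤ 1 - r * w - r := by
      have : r * (w + j) ≤ r * (w + k) - r := by nlinarith
      linarith
    have s1 : GStep (quad X 1) (r * (w + j), 0) (0, w) (r * (w + j), 1) :=
      step_left hX0 hw0 hw1 rfl haj0 (by simp only; linarith) (by norm_num)
    have s2 : GStep (quad X 1) (0, w) (r * (w + j), 1) (1 - r * w, w) := by
      refine step_top hX0 one_pos le_rfl hYX.le haj0 (by simp only; linarith) (by simp)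
        (by simp) (by simp only; nlinarith) (by simp only; nlinarith) ?_
      intro e
      have := congrArg Prod.fst e
      simp only at this
      linarith
    have s3 : GStep (quad X 1) (r * (w + j), 1) (1 - r * w, w) (r * (w + (j + 1 : ℕ)), 0) := by
      refine step_right hX0 one_pos hX1.le hYX hw0 hw1 ?_ ?_ ?_ ?_ ?_
      · simp only; rw [hXe]; ring
      · simp only; rw [hXe]; push_cast; ring
      · simp only; linarith
      · simp only; linarith
      · intro e
        have := congrArg Prod.snd e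
        simp at this
    have s4 : GStep (quad X 1) (1 - r * w, w) (r * (w + (j + 1 : ℕ)), 0) (0, w) := by
      refine step_bottom one_pos ?_ ?_ rfl hw0 hw1 ?_
      · positivity
      · push_cast; nlinarith
      · simp only; linarith
    refine ReflTransGen.head (b := ((0, w), (r * (w + j), 1))) ⟨rfl, s1⟩ ?_
    refine ReflTransGen.head (b := ((r * (w + j), 1), (1 - r * w, w))) ⟨rfl, s2⟩ ?_
    refine ReflTransGen.head (b := ((1 - r * w, w), (r * (w + (j + 1 : ℕ)), 0))) ⟨rfl, s3⟩ ?_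
    exact ReflTransGen.single ⟨rfl, s4⟩
  have hall : ∀ j : ℕ, j ≤ k → ReflTransGen (CStep (quad X 1)) ((r * w, 0), (0, w))
      ((r * (w + j), 0), (0, w)) := by
    intro j
    induction j with
    | zero => intro _; simpa using ReflTransGen.refl
    | succ j ih => intro hj; exact (ih (by omega)).trans (hblock j (by omega))
  have hk := hall k le_rfl
  rw [hak] at hk
  have t1 : GStep (quad X 1) (1 - r * w, 0) (0, w) (1 - r * w, w) :=
    step_left hX0 hw0 hw1 rfl (by simp only; linarith) (by simp only; linarith)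
      (by simp only; linarith)
  have t2 : GStep (quad X 1) (0, w) (1 - r * w, w) (r * w, 0) := by
    refine step_right hX0 one_pos hX1.le hYX hw0 hw1 ?_ ?_ ?_ ?_ ?_
    · simp only; rw [hXe]; ring
    · simp only; rw [hXe]; ring
    · simp only; nlinarith
    · simp only; nlinarith
    · intro e
      have := congrArg Prod.snd e
      simp only at this
      linarith
  have t3 : GStep (quad X 1) (1 - r * w, w) (r * w, 0) (0, w) :=
    step_bottom one_pos hrw (by linarith) rfl hw0 hw1 (by simp only; linarith)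
  refine ⟨((r * w, 0), (0, w)), ?_⟩
  have hA : TransGen (CStep (quad X 1)) ((1 - r * w, 0), (0, w)) ((r * w, 0), (0, w)) := by
    refine TransGen.head (b := ((0, w), (1 - r * w, w))) ⟨rfl, t1⟩ ?_
    refine TransGen.head (b := ((1 - r * w, w), (r * w, 0))) ⟨rfl, t2⟩ ?_
    exact TransGen.single ⟨rfl, t3⟩
  exact TransGen.trans_right hk hA

end Pool.Agent.SympBilliard
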