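import Pool.Agent.SympBilliard.Quad

/-!
# Every nondegenerate convex hull of at most four points has a closed walk
-/

set_option autoImplicit false

open Set Relation

namespace Pool.Agent.SympBilliard

/-- `aff` as an affine map. -/
noncomputable def affMap (o u v : ℝ × ℝ) : (ℝ × ℝ) →ᵃ[ℝ] (ℝ × ℝ) where
  toFun := aff o u v
  linear :=
    { toFun := fun z => z.1 • u + z.2 • v
      map_add' := by
        intro x y
        simp only [Prod.fst_add, Prod.snd_add, add_smul]
        abel
      map_smul' := by
        intro c x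
        simp only [Prod.smul_fst, Prod.smul_snd, smul_eq_mul, RingHom.id_apply, smul_add,
          mul_smul] }
  map_vadd' := by
    intro p w
    simp only [aff, vadd_eq_add, LinearMap.coe_mk, AddHom.coe_mk, Prod.fst_add, Prod.snd_add,
      add_smul]
    abel

theorem aff_image_convexHull (o u v : ℝ × ℝ) (S : Set (ℝ × ℝ)) :
    aff o u v '' convexHull ℝ S = convexHull ℝ (aff o u v '' S) :=
  (affMap o u v).image_convexHull S

theorem aff_image_quad (o u v : ℝ × ℝ) (X Y : ℝ) :
    aff o u v '' quad X Y = convexHull ℝ {o, o + u, o + X • u + Y • v, o + v} := by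
  rw [quad, aff_image_convexHull]
  congr 1
  simp only [image_insert_eq, image_singleton, aff, zero_smul, one_smul, add_zero]

theorem HasWalk.swap {X Y : ℝ} (h : HasWalk (quad X Y)) : HasWalk (quad Y X) := by
  have h1 := h.image (o := (0, 0)) (u := (0, 1)) (v := (1, 0)) (by norm_num)
  rw [aff_image_quad] at h1
  have : ({(0, 0), ((0, 0) : ℝ × ℝ) + (0, 1), ((0, 0) : ℝ × ℝ) + X • ((0, 1) : ℝ × ℝ)
      + Y • ((1, 0) : ℝ × ℝ), ((0, 0) : ℝ × ℝ) + (1, 0)} : Set (ℝ × ℝ))
      = {((0:ℝ), (0:ℝ)), ((1:ℝ), (0:ℝ)), (Y, X), ((0:ℝ), (1:ℝ))} := by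
    ext z
    simp only [mem_insert_iff, mem_singleton_iff, Prod.smul_mk, Prod.mk_add_mk, smul_eq_mul,
      mul_one, mul_zero, zero_add, add_zero]
    tauto
  rw [this] at h1
  exact h1

theorem walk_le_one {X Y : ℝ} (hX : 0 < X) (hX1 : X ≤ 1) (hY : 0 < Y) (hY1 : Y ≤ 1)
    (hXY : 1 < X + Y) : HasWalk (quad X Y) := by
  rcases lt_trichotomy Y (1/2) with h | h | h
  · exact walk3 hX hX1 hY hXY.le h
  · rcases hX1.lt_or_eq with h1 | h1
    · rw [h]; exact walk10 (by linarith) h1
    · rw [h1]; exact (walkTrap hY (by linarith)).swap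
  · rcases lt_trichotomy X (1/2) with h' | h' | h'
    · exact (walk3 hY hY1 hX (by linarith) h').swap
    · rcases hY1.lt_or_eq with h1 | h1
      · rw [h']; exact (walk10 h h1).swap
      · rw [h1]; exact walkTrap hX (by linarith)
    · rcases hX1.lt_or_eq with h1 | h1
      · rcases hY1.lt_or_eq with h2 | h2
        · exact walk6 h' h1 h h2
        · rw [h2]; exact walkTrap hX h1
      · rcases hY1.lt_or_eq with h2 | h2
        · rw [h1]; exact (walkTrap hY h2).swap
        · rw [h1, h2]; exact walk4

theorem walk_quad {X Y : ℝ} (hX : 0 < X) (hY : 0 < Y) (hXY : 1 < X + Y) :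
    HasWalk (quad X Y) := by
  rcases le_total X 1 with h1 | h1
  · rcases le_total Y 1 with h2 | h2
    · exact walk_le_one hX h1 hY h2 hXY
    · -- corner (1,0)
      have hw : HasWalk (quad ((X + Y - 1) / Y) (1 / Y)) := by
        refine walk_le_one (div_pos (by linarith) hY) ?_ (by positivity) ?_ ?_
        · rw [div_le_one hY]; linarith
        · rw [div_le_one hY]; exact h2
        · rw [← add_div, lt_div_iff₀ hY]; linarith
      have h3 := hw.image (o := (1, 0)) (u := (-1, 0)) (v := (X - 1, Y))
        (by simp only; intro h; nlinarith)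
      rw [aff_image_quad] at h3
      have e1 : ((1, 0) : ℝ × ℝ) + ((X + Y - 1) / Y) • ((-1, 0) : ℝ × ℝ)
          + (1 / Y) • ((X - 1, Y) : ℝ × ℝ) = (0, 1) := by
        ext
        · simp; field_simp; ring
        · simp; field_simp
      have e2 : ((1, 0) : ℝ × ℝ) + (-1, 0) = (0, 0) := by ext <;> simp
      have e3 : ((1, 0) : ℝ × ℝ) + (X - 1, Y) = (X, Y) := by ext <;> simp
      rw [e1, e2, e3] at h3
      have : ({(1, 0), (0, 0), (0, 1), (X, Y)} : Set (ℝ × ℝ))
          = {((0:ℝ), (0:ℝ)), ((1:ℝ), (0:ℝ)), (X, Y), ((0:ℝ), (1:ℝ))} := by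
        ext z
        simp only [mem_insert_iff, mem_singleton_iff]
        tauto
      rw [this] at h3
      exact h3
  · rcases le_total Y 1 with h2 | h2
    · -- corner (0,1)
      have hw : HasWalk (quad (1 / X) ((X + Y - 1) / X)) := by
        refine walk_le_one (by positivity) ?_ (div_pos (by linarith) hX) ?_ ?_
        · rw [div_le_one hX]; exact h1
        · rw [div_le_one hX]; linarith
        · rw [← add_div, lt_div_iff₀ hX]; linarith
      have h3 := hw.image (o := (0, 1)) (u := (X, Y - 1)) (v := (0, -1))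
        (by simp only; intro h; nlinarith)
      rw [aff_image_quad] at h3
      have e1 : ((0, 1) : ℝ × ℝ) + (1 / X) • ((X, Y - 1) : ℝ × ℝ)
          + ((X + Y - 1) / X) • ((0, -1) : ℝ × ℝ) = (1, 0) := by
        ext
        · simp; field_simp
        · simp; field_simp; ring
      have e2 : ((0, 1) : ℝ × ℝ) + (X, Y - 1) = (X, Y) := by ext <;> simp
      have e3 : ((0, 1) : ℝ × ℝ) + (0, -1) = (0, 0) := by ext <;> simp
      rw [e1, e2, e3] at h3
      have : ({(0, 1), (X, Y), (1, 0), (0, 0)} : Set (ℝ × ℝ))
          = {((0:ℝ), (0:ℝ)), ((1:ℝ), (0:ℝ)), (X, Y), ((0:ℝ), (1:ℝ))} := by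
        ext z
        simp only [mem_insert_iff, mem_singleton_iff]
        tauto
      rw [this] at h3
      exact h3
    · -- corner (X,Y)
      have hs : 0 < X + Y - 1 := by linarith
      have hw : HasWalk (quad (X / (X + Y - 1)) (Y / (X + Y - 1))) := by
        refine walk_le_one (by positivity) ?_ (by positivity) ?_ ?_
        · rw [div_le_one hs]; linarith
        · rw [div_le_one hs]; linarith
        · rw [← add_div, lt_div_iff₀ hs]; linarith
      have h3 := hw.image (o := (X, Y)) (u := (1 - X, -Y)) (v := (-X, 1 - Y))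
        (by simp only; intro h; nlinarith)
      rw [aff_image_quad] at h3
      have e1 : ((X, Y) : ℝ × ℝ) + (X / (X + Y - 1)) • ((1 - X, -Y) : ℝ × ℝ)
          + (Y / (X + Y - 1)) • ((-X, 1 - Y) : ℝ × ℝ) = (0, 0) := by
        ext
        · simp; field_simp; ring
        · simp; field_simp; ring
      have e2 : ((X, Y) : ℝ × ℝ) + (1 - X, -Y) = (1, 0) := by ext <;> simp
      have e3 : ((X, Y) : ℝ × ℝ) + (-X, 1 - Y) = (0, 1) := by ext <;> simp
      rw [e1, e2, e3] at h3
      have : ({(X, Y), (1, 0), (0, 0), (0, 1)} : Set (ℝ × ℝ))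
          = {((0:ℝ), (0:ℝ)), ((1:ℝ), (0:ℝ)), (X, Y), ((0:ℝ), (1:ℝ))} := by
        ext z
        simp only [mem_insert_iff, mem_singleton_iff]
        tauto
      rw [this] at h3
      exact h3

/-- Cross product of `B - A` and `C - A`. -/
def cross3 (A B C : ℝ × ℝ) : ℝ := (B.1 - A.1) * (C.2 - A.2) - (B.2 - A.2) * (C.1 - A.1)

theorem hull_insert {p : ℝ × ℝ} {S : Set (ℝ × ℝ)} (h : p ∈ convexHull ℝ S) :
    convexHull ℝ (insert p S) = convexHull ℝ S := by
  refine Subset.antisymm (convexHull_min ?_ (convex_convexHull ℝ S))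
    (convexHull_mono (subset_insert p S))
  exact insert_subset h (subset_convexHull ℝ S)

/-- Triangles. -/
theorem walk_triangle {A B C : ℝ × ℝ} (h : cross3 A B C ≠ 0) :
    HasWalk (convexHull ℝ {A, B, C}) := by
  have hw : HasWalk (quad (3/4) (1/4)) :=
    walk3 (by norm_num) (by norm_num) (by norm_num) (by norm_num) (by norm_num)
  have h3 := hw.image (o := A) (u := B - A) (v := C - A)
    (by simp only [Prod.fst_sub, Prod.snd_sub]; exact h)
  rw [aff_image_quad] at h3
  have e1 : A + (B - A) = B := by abel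
  have e2 : A + (C - A) = C := by abel
  rw [e1, e2] at h3
  have e3 : ({A, B, A + (3/4 : ℝ) • (B - A) + (1/4 : ℝ) • (C - A), C} : Set (ℝ × ℝ))
      = insert (A + (3/4 : ℝ) • (B - A) + (1/4 : ℝ) • (C - A)) {A, B, C} := by
    ext z
    simp only [mem_insert_iff, mem_singleton_iff]
    tauto
  rw [e3, hull_insert] at h3
  · exact h3
  · have hB : B ∈ convexHull ℝ ({A, B, C} : Set (ℝ × ℝ)) := subset_convexHull ℝ _ (by simp)
    have hC : C ∈ convexHull ℝ ({A, B, C} : Set (ℝ × ℝ)) := subset_convexHull ℝ _ (by simp)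
    have h4 := (convex_convexHull ℝ ({A, B, C} : Set (ℝ × ℝ))) hB hC
      (by norm_num : (0:ℝ) ≤ 3/4) (by norm_num : (0:ℝ) ≤ 1/4) (by norm_num)
    have h5 : A + (3/4 : ℝ) • (B - A) + (1/4 : ℝ) • (C - A) = (3/4 : ℝ) • B + (1/4 : ℝ) • C := by
      module
    rw [h5]
    exact h4

theorem mem_hull3 {A B C P : ℝ × ℝ} {a b c : ℝ} (ha : 0 ≤ a) (hb : 0 ≤ b) (hc : 0 ≤ c)
    (habc : a + b + c = 1) (hP : P = a • A + b • B + c • C) :
    P ∈ convexHull ℝ ({A, B, C} : Set (ℝ × ℝ)) := by
  have hA : A ∈ convexHull ℝ ({A, B, C} : Set (ℝ × ℝ)) := subset_convexHull ℝ _ (by simp)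
  have hB : B ∈ convexHull ℝ ({A, B, C} : Set (ℝ × ℝ)) := subset_convexHull ℝ _ (by simp)
  have hC : C ∈ convexHull ℝ ({A, B, C} : Set (ℝ × ℝ)) := subset_convexHull ℝ _ (by simp)
  have hconv := convex_convexHull ℝ ({A, B, C} : Set (ℝ × ℝ))
  rw [hP]
  have := hconv.sum_mem (t := (Finset.univ : Finset (Fin 3))) (w := ![a, b, c])
    (z := ![A, B, C]) (by
      intro i _
      fin_cases i
      · exact ha
      · exact hb
      · exact hc) (by simp [Fin.sum_univ_three, habc]) (by
      intro i _
      fin_cases i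
      · exact hA
      · exact hB
      · exact hC)
  simpa [Fin.sum_univ_three] using this

/-- One negative barycentric coordinate. -/
theorem walk_one_neg {A B C D : ℝ × ℝ} (h : cross3 A B C ≠ 0) {a b c : ℝ}
    (habc : a + b + c = 1) (hD : D = a • A + b • B + c • C) (ha : a < 0) (hb : 0 ≤ b)
    (hc : 0 ≤ c) : HasWalk (convexHull ℝ {A, B, C, D}) := by
  have hDA : D = A + b • (B - A) + c • (C - A) := by
    rw [hD]
    have : a = 1 - b - c := by linarith
    rw [this]
    module
  rcases hb.lt_or_eq with hb' | hb'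
  · rcases hc.lt_or_eq with hc' | hc'
    · have hw := walk_quad hb' hc' (by linarith)
      have h3 := hw.image (o := A) (u := B - A) (v := C - A)
        (by simp only [Prod.fst_sub, Prod.snd_sub]; exact h)
      rw [aff_image_quad] at h3
      have e1 : A + (B - A) = B := by abel
      have e2 : A + (C - A) = C := by abel
      rw [e1, e2, ← hDA] at h3
      have e3 : ({A, B, D, C} : Set (ℝ × ℝ)) = {A, B, C, D} := by
        ext z
        simp only [mem_insert_iff, mem_singleton_iff]
        tauto
      rw [e3] at h3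
      exact h3
    · -- c = 0: B lies between A and D
      have hab : b = 1 - a := by linarith
      have hBmem : B ∈ convexHull ℝ ({A, C, D} : Set (ℝ × ℝ)) := by
        have hbne : b ≠ 0 := hb'.ne'
        refine mem_hull3 (a := -a / b) (b := 0) (c := 1 / b) ?_ le_rfl ?_ ?_ ?_
        · exact div_nonneg (by linarith) hb
        · positivity
        · rw [add_zero, ← add_div, div_eq_one_iff_eq hbne]; linarith
        · rw [hD, ← hc']
          simp only [zero_smul, add_zero, smul_add, smul_smul]
          rw [← add_assoc, ← add_smul]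
          have e1 : -a / b + 1 / b * a = 0 := by field_simp; ring
          have e2 : 1 / b * b = 1 := by field_simp
          rw [e1, e2, zero_smul, one_smul, zero_add]
      have e3 : ({A, B, C, D} : Set (ℝ × ℝ)) = insert B {A, C, D} := by
        ext z
        simp only [mem_insert_iff, mem_singleton_iff]
        tauto
      rw [e3, hull_insert hBmem]
      apply walk_triangle
      have : cross3 A C D = - b * cross3 A B C := by
        rw [hDA, ← hc']
        simp only [cross3, zero_smul, add_zero, Prod.fst_add, Prod.snd_add, Prod.smul_fst,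
          Prod.smul_snd, Prod.fst_sub, Prod.snd_sub, smul_eq_mul]
        ring
      rw [this]
      exact mul_ne_zero (neg_ne_zero.2 hb'.ne') h
  · -- b = 0: C lies between A and D
    have hcpos : 0 < c := by linarith
    have hCmem : C ∈ convexHull ℝ ({A, B, D} : Set (ℝ × ℝ)) := by
      have hcne : c ≠ 0 := hcpos.ne'
      refine mem_hull3 (a := -a / c) (b := 0) (c := 1 / c) ?_ le_rfl ?_ ?_ ?_
      · exact div_nonneg (by linarith) hc
      · positivity
      · rw [add_zero, ← add_div, div_eq_one_iff_eq hcne]; linarith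
      · rw [hD, ← hb']
        simp only [zero_smul, add_zero, smul_add, smul_smul]
        rw [← add_assoc, ← add_smul]
        have e1 : -a / c + 1 / c * a = 0 := by field_simp; ring
        have e2 : 1 / c * c = 1 := by field_simp
        rw [e1, e2, zero_smul, one_smul, zero_add]
    have e3 : ({A, B, C, D} : Set (ℝ × ℝ)) = insert C {A, B, D} := by
      ext z
      simp only [mem_insert_iff, mem_singleton_iff]
      tauto
    rw [e3, hull_insert hCmem]
    apply walk_triangle
    have : cross3 A B D = c * cross3 A B C := by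
      rw [hDA, ← hb']
      simp only [cross3, zero_smul, add_zero, Prod.fst_add, Prod.snd_add, Prod.smul_fst,
        Prod.smul_snd, Prod.fst_sub, Prod.snd_sub, smul_eq_mul]
      ring
    rw [this]
    exact mul_ne_zero hcpos.ne' h

/-- Two negative barycentric coordinates. -/
theorem walk_two_neg {A B C D : ℝ × ℝ} (h : cross3 A B C ≠ 0) {a b c : ℝ}
    (habc : a + b + c = 1) (hD : D = a • A + b • B + c • C) (hb : b < 0)
    (hc : c < 0) : HasWalk (convexHull ℝ {A, B, C, D}) := by
  have ha : 0 < a := by linarith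
  have hAmem : A ∈ convexHull ℝ ({B, C, D} : Set (ℝ × ℝ)) := by
    refine mem_hull3 (a := -b / a) (b := -c / a) (c := 1 / a) ?_ ?_ ?_ ?_ ?_
    · exact div_nonneg (by linarith) ha.le
    · exact div_nonneg (by linarith) ha.le
    · positivity
    · rw [← add_div, ← add_div, div_eq_one_iff_eq ha.ne']; linarith
    · rw [hD, smul_add, smul_add, smul_smul, smul_smul, smul_smul]
      have e1 : 1 / a * a = 1 := by field_simp
      have e2 : 1 / a * b = -(-b / a) := by field_simp
      have e3 : 1 / a * c = -(-c / a) := by field_simp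
      rw [e1, e2, e3]
      module
  rw [hull_insert hAmem]
  apply walk_triangle
  have : cross3 B C D = a * cross3 A B C := by
    have ha' : a = 1 - b - c := by linarith
    rw [hD, ha']
    simp only [cross3, Prod.fst_add, Prod.snd_add, Prod.smul_fst,
      Prod.smul_snd, smul_eq_mul]
    ring
  rw [this]
  exact mul_ne_zero ha.ne' h

theorem cross3_swap (A B C : ℝ × ℝ) : cross3 B A C = - cross3 A B C := by
  simp only [cross3]; ring

theorem cross3_rot (A B C : ℝ × ℝ) : cross3 C A B = cross3 A B C := by
  simp only [cross3]; ring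

theorem walk_four {A B C D : ℝ × ℝ} (h : cross3 A B C ≠ 0) :
    HasWalk (convexHull ℝ {A, B, C, D}) := by
  -- barycentric coordinates
  obtain ⟨a, b, c, habc, hD⟩ : ∃ a b c : ℝ, a + b + c = 1 ∧ D = a • A + b • B + c • C := by
    obtain ⟨Δ, hΔ⟩ : ∃ Δ : ℝ, Δ = cross3 A B C := ⟨_, rfl⟩
    have hΔ0 : Δ ≠ 0 := by rw [hΔ]; exact h
    refine ⟨1 - cross3 A D C / Δ - cross3 A B D / Δ,
      cross3 A D C / Δ, cross3 A B D / Δ, by ring, ?_⟩
    have k1 : Δ * D.1 = (Δ - cross3 A D C - cross3 A B D) * A.1 + cross3 A D C * B.1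
        + cross3 A B D * C.1 := by
      rw [hΔ]; simp only [cross3]; ring
    have k2 : Δ * D.2 = (Δ - cross3 A D C - cross3 A B D) * A.2 + cross3 A D C * B.2
        + cross3 A B D * C.2 := by
      rw [hΔ]; simp only [cross3]; ring
    ext
    · simp only [Prod.fst_add, Prod.smul_fst, smul_eq_mul]
      field_simp
      linarith
    · simp only [Prod.snd_add, Prod.smul_snd, smul_eq_mul]
      field_simp
      linarith
  have hBAC : cross3 B A C ≠ 0 := by rw [cross3_swap]; exact neg_ne_zero.2 h
  have hCAB : cross3 C A B ≠ 0 := by rw [cross3_rot]; exact h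
  have eB : ({A, B, C, D} : Set (ℝ × ℝ)) = {B, A, C, D} := by
    ext z; simp only [mem_insert_iff, mem_singleton_iff]; tauto
  have eC : ({A, B, C, D} : Set (ℝ × ℝ)) = {C, A, B, D} := by
    ext z; simp only [mem_insert_iff, mem_singleton_iff]; tauto
  have hDB : D = b • B + a • A + c • C := by rw [hD]; abel
  have hDC : D = c • C + a • A + b • B := by rw [hD]; abel
  rcases lt_or_ge a 0 with ha | ha
  · rcases lt_or_ge b 0 with hb | hb
    · rw [eC]; exact walk_two_neg hCAB (by linarith) hDC ha hb
    · rcases lt_or_ge c 0 with hc | hc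
      · rw [eB]; exact walk_two_neg hBAC (by linarith) hDB ha hc
      · exact walk_one_neg h habc hD ha hb hc
  · rcases lt_or_ge b 0 with hb | hb
    · rcases lt_or_ge c 0 with hc | hc
      · exact walk_two_neg h habc hD hb hc
      · rw [eB]; exact walk_one_neg hBAC (by linarith) hDB hb ha hc
    · rcases lt_or_ge c 0 with hc | hc
      · rw [eC]; exact walk_one_neg hCAB (by linarith) hDC hc ha hb
      · have hmem := mem_hull3 ha hb hc habc hD
        have e3 : ({A, B, C, D} : Set (ℝ × ℝ)) = insert D {A, B, C} := by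
          ext z; simp only [mem_insert_iff, mem_singleton_iff]; tauto
        rw [e3, hull_insert hmem]
        exact walk_triangle h

/-- Three non-collinear points among the points spanning a set with interior. -/
theorem exists_cross_ne {S : Set (ℝ × ℝ)} (hS : (interior (convexHull ℝ S)).Nonempty) :
    ∃ A ∈ S, ∃ B ∈ S, ∃ C ∈ S, cross3 A B C ≠ 0 := by
  by_contra hcon
  push Not at hcon
  obtain ⟨z, hz⟩ := hS
  have hline : ∀ (a b c : ℝ), (a ≠ 0 ∨ b ≠ 0) → (∀ w ∈ S, a * w.1 + b * w.2 = c) → False := by
    intro a b c hab hw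
    have hsub : convexHull ℝ S ⊆ {w : ℝ × ℝ | a * w.1 + b * w.2 ≤ c} :=
      convexHull_min (fun w hw' => (hw w hw').le) (convex_halfplane a b c)
    have hsub2 : convexHull ℝ S ⊆ {w : ℝ × ℝ | (-a) * w.1 + (-b) * w.2 ≤ -c} :=
      convexHull_min (fun w hw' => by
        simp only [mem_ofPred_eq]
        linarith [hw w hw']) (convex_halfplane (-a) (-b) (-c))
    have hzS := interior_subset hz
    have h1 : a * z.1 + b * z.2 = c := by
      have e1 := hsub hzS
      have e2 := hsub2 hzS
      simp only [mem_ofPred_eq] at e1 e2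
      linarith
    have h2 : z ∈ frontier (convexHull ℝ S) := by
      refine mem_frontier_of_support hzS hab ?_
      intro w hw
      have := hsub hw
      simp only [mem_ofPred_eq] at this
      linarith
    exact h2.2 hz
  -- S is nonempty
  have hSne : S.Nonempty := by
    by_contra hemp
    rw [not_nonempty_iff_eq_empty] at hemp
    rw [hemp, convexHull_empty, interior_empty] at hz
    exact hz
  obtain ⟨A, hA⟩ := hSne
  by_cases hall : ∀ B ∈ S, B = A
  · exact hline 1 0 A.1 (Or.inl one_ne_zero) (fun w hw => by rw [hall w hw]; ring)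
  · push Not at hall
    obtain ⟨B, hB, hBA⟩ := hall
    refine hline (-(B.2 - A.2)) (B.1 - A.1) ((B.1 - A.1) * A.2 - (B.2 - A.2) * A.1) ?_ ?_
    · by_contra h
      push Not at h
      apply hBA
      ext
      · linarith [h.2]
      · linarith [h.1]
    · intro w hw
      have := hcon A hA B hB w hw
      simp only [cross3] at this
      linarith

theorem walk_finset (S : Finset (ℝ × ℝ)) (hcard : S.card ≤ 4)
    (hS : (interior (convexHull ℝ (↑S : Set (ℝ × ℝ)))).Nonempty) :
    HasWalk (convexHull ℝ (↑S : Set (ℝ × ℝ))) := by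
  classical
  obtain ⟨A, hA, B, hB, C, hC, hne⟩ := exists_cross_ne hS
  rw [Finset.mem_coe] at hA hB hC
  have hAB : A ≠ B := by rintro rfl; simp [cross3] at hne
  have hAC : A ≠ C := by
    rintro rfl; apply hne; simp only [cross3]; ring
  have hBC : B ≠ C := by rintro rfl; apply hne; simp only [cross3]; ring
  set T : Finset (ℝ × ℝ) := ((S.erase A).erase B).erase C with hT
  have hTcard : T.card ≤ 1 := by
    have h1 : (S.erase A).card = S.card - 1 := Finset.card_erase_of_mem hA
    have h2 : ((S.erase A).erase B).card = (S.erase A).card - 1 :=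
      Finset.card_erase_of_mem (Finset.mem_erase.2 ⟨hAB.symm, hB⟩)
    have h3 : T.card = ((S.erase A).erase B).card - 1 :=
      Finset.card_erase_of_mem (Finset.mem_erase.2 ⟨hBC.symm, Finset.mem_erase.2 ⟨hAC.symm, hC⟩⟩)
    omega
  have hcover : ∀ x ∈ S, x = A ∨ x = B ∨ x = C ∨ x ∈ T := by
    intro x hx
    by_cases h1 : x = A
    · exact Or.inl h1
    by_cases h2 : x = B
    · exact Or.inr (Or.inl h2)
    by_cases h3 : x = C
    · exact Or.inr (Or.inr (Or.inl h3))
    · right; right; right
      rw [hT, Finset.mem_erase, Finset.mem_erase, Finset.mem_erase]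
      exact ⟨h3, h2, h1, hx⟩
  have hTS : ∀ x ∈ T, x ∈ S := by
    intro x hx
    rw [hT, Finset.mem_erase, Finset.mem_erase, Finset.mem_erase] at hx
    exact hx.2.2.2
  rcases T.eq_empty_or_nonempty with hTe | ⟨D, hD⟩
  · have hSeq : (↑S : Set (ℝ × ℝ)) = {A, B, C} := by
      ext x
      simp only [Finset.mem_coe, mem_insert_iff, mem_singleton_iff]
      constructor
      · intro hx
        rcases hcover x hx with h | h | h | h
        · exact Or.inl h
        · exact Or.inr (Or.inl h)
        · exact Or.inr (Or.inr h)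
        · rw [hTe] at h; exact absurd h (Finset.notMem_empty x)
      · rintro (rfl | rfl | rfl) <;> assumption
    rw [hSeq]
    exact walk_triangle hne
  · have hTeq : T = {D} := by
      rw [Finset.eq_singleton_iff_unique_mem]
      exact ⟨hD, fun x hx => Finset.card_le_one.1 hTcard x hx D hD⟩
    have hSeq : (↑S : Set (ℝ × ℝ)) = {A, B, C, D} := by
      ext x
      simp only [Finset.mem_coe, mem_insert_iff, mem_singleton_iff]
      constructor
      · intro hx
        rcases hcover x hx with h | h | h | h
        · exact Or.inl h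
        · exact Or.inr (Or.inl h)
        · exact Or.inr (Or.inr (Or.inl h))
        · rw [hTeq, Finset.mem_singleton] at h
          exact Or.inr (Or.inr (Or.inr h))
      · rintro (rfl | rfl | rfl | rfl)
        · exact hA
        · exact hB
        · exact hC
        · exact hTS _ hD
    rw [hSeq]
    exact walk_four hne

end Pool.Agent.SympBilliard
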